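import Pool.Agent.TH91.BG.M1

/-!
# MP_cad6ee_co: two-large sets and colourings coming from nilsystems

`TwoLarge S`: every colouring of the positive integers with two colours has arbitrarily long
monochromatic arithmetic progressions whose common difference is in `S`.
-/

set_option autoImplicit false

namespace Pool.Agent.Results.MP_cad6ee_co.NilColourings

open Pool.Agent.W97.TL Pool.Agent.TH91.NB Pool.Agent.TH91.LG Pool.Agent.TH91.BG
open scoped ContDiff Manifold

/-- Let `S` be 2-large, let `G` be a nilpotent Lie group (of any step, connected or not), `Γ` a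
subgroup of `G` with `G / Γ` compact, `g ∈ G` and `x ∈ G / Γ`.  Let `f` be a colouring of the
integers with any number of colours which is continuous at one integer `m ≥ 1` for the topology
pulled back by `n ↦ g ^ n x`.  Then for every `k` there is an `f`-monochromatic arithmetic
progression with `k` terms in the positive integers and with common difference in `S`. -/
theorem result (S : Set ℕ) (hS : TwoLarge S) (E : Type*) [NormedAddCommGroup E]
    [NormedSpace ℝ E] [FiniteDimensional ℝ E] (G : Type*) [TopologicalSpace G]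
    [ChartedSpace E G] [Group G] [LieGroup 𝓘(ℝ, E) ∞ G] [Group.IsNilpotent G]
    (Γ : Subgroup G) (hc : CompactSpace (G ⧸ Γ)) (g : G) (x : G ⧸ Γ)
    (C : Type*) (f : ℕ → C) (m : ℕ) (hm : 1 ≤ m) (U : Set (G ⧸ Γ)) (hU : IsOpen U)
    (hmU : g ^ m • x ∈ U) (hf : ∀ n, 1 ≤ n → g ^ n • x ∈ U → f n = f m) (k : ℕ) :
    ∃ a, 1 ≤ a ∧ ∃ d ∈ S, ∀ i < k, f (a + i * d) = f a := by
  have htop : IsTopologicalGroup G := topologicalGroup_of_lieGroup 𝓘(ℝ, E) ∞
  have hmod : ∀ i : ℕ, HasModel (g ^ i) := by
    intro i
    obtain ⟨N, H, φ, h1, h2, h3, h, hh⟩ := lie_model (E := E) (g ^ i)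
    exact ⟨N, H, φ, h1, h2, h3, h, hh⟩
  obtain ⟨d, hd, hr⟩ := multi_rec S hS G g hmod Γ hc (g ^ m • x) U hU hmU k
  refine ⟨m, hm, d, hd, fun i hi => ?_⟩
  refine hf (m + i * d) (by omega) ?_
  have h := hr i hi
  rw [← mul_smul, ← pow_add] at h
  rwa [add_comm]

end Pool.Agent.Results.MP_cad6ee_co.NilColourings
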